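import Pool.Agent.U496.WG.Map
import Pool.Agent.U496.PS.Logc

/-!
# Wiggin's maps and pushdown machines
-/

set_option autoImplicit false

namespace Pool.Agent.U496.WG

open Finset
open Pool.Agent.U364.PD (Machine errors)

/-- the residues modulo `D` of the orbit of `x`: the first one is `x mod D` -/
def residues (D x : ℕ) (n : ℕ) : ℤ := (((F D)^[n - 1] x % D : ℕ) : ℤ)

open Classical in
/-- the cost of `φ (a 1), …, φ (a N)` as a prediction of the residues of the orbit of `x` modulo `D` by the machine `M` which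
reads `a 1, …, a N`: the number of the `n ∈ [1, N]` with `φ (a n)` different from the `n`-th residue, plus the number of the
errors of `M` on `a 1, …, a N`, plus the length of the initial stack -/
noncomputable def cost {Q Γ : Type} (M : Machine Q Γ) (D x : ℕ) (a : ℕ → ℤ) (φ : ℤ → ℤ) (q₀ : Q) (s₀ : List Γ)
    (N : ℕ) : ℕ :=
  ((range N).filter fun n => φ (a (n + 1)) ≠ residues D x (n + 1)).card + errors M a q₀ s₀ N + s₀.length

theorem main {Q Γ : Type} [Finite Q] [Finite Γ] (M : Machine Q Γ) (B : ℕ) : ∃ K ρ : ℕ, 2 ≤ K ∧ 1 ≤ ρ ∧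
    ∀ D x l : ℕ, 2 ≤ D → 1 ≤ x → x ≤ 2 ^ l → ∀ a : ℕ → ℤ, (∀ n, 0 ≤ a n ∧ a n < B) →
      ∀ (φ : ℤ → ℤ) (q₀ : Q) (s₀ : List Γ) (N : ℕ), K ^ (cost M D x a φ q₀ s₀ N + 1) * (l + 1) ≤ N →
        ∃ m, m ≤ N ∧ (F D)^[ρ] ((F D)^[m] x) = (F D)^[m] x ∧ (F D)^[m] x ≤ (2 * (D + 1)) ^ (ρ + 1) := by
  classical
  obtain ⟨K₀, ρ, hρ, hT⟩ := Pool.Agent.U496.PS.transfer M B
  refine ⟨(12 + 4 * ρ) ^ (K₀ + 1), ρ, ?_, hρ, fun D x l hD hx hxl a ha φ q₀ s₀ N hN => ?_⟩
  · calc 2 ≤ (12 + 4 * ρ) ^ 1 := by rw [pow_one]; omega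
      _ ≤ _ := Nat.pow_le_pow_right (by omega) (by omega)
  obtain ⟨E, hE⟩ : ∃ E, E = cost M D x a φ q₀ s₀ N := ⟨_, rfl⟩
  rw [← hE] at hN
  have h1 := (hT a ha φ (residues D x) q₀ s₀ N).1
  have h2 : ((range N).filter fun n => residues D x (n + 1 + ρ) ≠ residues D x (n + 1)).card ≤ K₀ * (E + 1) := by
    have h3 : (((range N).filter fun n => residues D x (n + 1 + ρ) ≠ residues D x (n + 1)).card : ℝ) ≤
        ((K₀ * (E + 1) : ℕ) : ℝ) := by
      refine h1.trans (le_of_eq ?_)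
      rw [hE]
      unfold cost
      push_cast
      congr 4
    exact_mod_cast h3
  have hNT : (12 + 4 * ρ) ^ (K₀ * (E + 1) + 1) * (l + 1) ≤ N := by
    refine le_trans (Nat.mul_le_mul_right _ ?_) hN
    rw [← pow_mul]
    apply Nat.pow_le_pow_right (by omega)
    nlinarith
  obtain ⟨j, hj, hwin⟩ := window (fun n => residues D x (n + 1 + ρ) ≠ residues D x (n + 1)) (12 + 4 * ρ) (l + 1) N
    (K₀ * (E + 1)) (by omega) (by omega) hNT h2
  obtain ⟨n, hn⟩ : ∃ n, n = (12 + 4 * ρ) ^ j * (l + 1) := ⟨_, rfl⟩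
  have hnl : l + 1 ≤ n := by
    rw [hn]
    exact Nat.le_mul_of_pos_left _ (Nat.pow_pos (by omega))
  have hn' : (12 + 4 * ρ) ^ (j + 1) * (l + 1) = (12 + 4 * ρ) * n := by
    rw [hn, pow_succ]
    ring
  rw [← hn, hn'] at hwin
  have hper := arrive hD ρ hx hxl n ((11 + 4 * ρ) * n) (by nlinarith) (fun i hi => by
    have h3 := hwin (n + i) (by omega) (by nlinarith)
    rw [not_not] at h3
    unfold residues at h3
    have e1 : n + i + 1 + ρ - 1 = n + i + ρ := by omega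
    have e2 : n + i + 1 - 1 = n + i := by omega
    rw [e1, e2] at h3
    exact_mod_cast h3)
  refine ⟨n, ?_, hper, periodic_le hD ρ hρ hper⟩
  refine le_trans ?_ hNT
  rw [hn]
  exact Nat.mul_le_mul_right _ (Nat.pow_le_pow_right (by omega) (by omega))

/-- from a bound of the order `log N` for the cost -/
lemma log_form (K l : ℕ) (hK : 2 ≤ K) (N E : ℕ) (hN : (K * (l + 1)) ^ 2 ≤ N)
    (h : (E : ℝ) ≤ 1 / (2 * Real.log K) * Real.log N) : K ^ (E + 1) * (l + 1) ≤ N := by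
  have hKr : (2 : ℝ) ≤ K := by exact_mod_cast hK
  have hK0 : (0 : ℝ) < K := by linarith
  have hlogK : 0 < Real.log K := Real.log_pos (by linarith)
  have hKl : (0 : ℝ) < K * (l + 1) := by positivity
  have hN0 : (0 : ℝ) < N := by
    have : 0 < (K * (l + 1)) ^ 2 := by positivity
    exact_mod_cast lt_of_lt_of_le this hN
  set S : ℝ := Real.exp (Real.log N / 2) with hS
  have hSS : S * S = N := by
    rw [hS, ← Real.exp_add, add_halves, Real.exp_log hN0]
  have h1 : (K : ℝ) ^ E ≤ S := by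
    rw [← Real.exp_log hK0, ← Real.exp_nat_mul, hS]
    apply Real.exp_le_exp.2
    calc (E : ℝ) * Real.log K ≤ 1 / (2 * Real.log K) * Real.log N * Real.log K :=
          mul_le_mul_of_nonneg_right h hlogK.le
      _ = Real.log N / 2 := by
          field_simp
  have h2 : (K : ℝ) * (l + 1) ≤ S := by
    rw [← Real.exp_log hKl, hS]
    apply Real.exp_le_exp.2
    have h3 : ((K : ℝ) * (l + 1)) ^ 2 ≤ N := by exact_mod_cast hN
    have h4 := Real.log_le_log (by positivity) h3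
    rw [Real.log_pow] at h4
    push_cast at h4
    linarith
  have h3 : (K : ℝ) ^ (E + 1) * (l + 1) ≤ N := by
    calc (K : ℝ) ^ (E + 1) * (l + 1) = (K : ℝ) ^ E * (K * (l + 1)) := by rw [pow_succ]; ring
      _ ≤ S * S := mul_le_mul h1 h2 hKl.le (Real.exp_pos _).le
      _ = N := hSS
  exact_mod_cast h3

end Pool.Agent.U496.WG
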