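import Mathlib

/-!
# Wiggin's maps `F_D`: orbits whose residues repeat are periodic
-/

set_option autoImplicit false

namespace Pool.Agent.U496.WG

open Finset

/-- Wiggin's map `F_D` -/
def F (D x : ℕ) : ℕ :=
  if x % D = 0 then x / D else if x % D = D - 1 then (D + 1) * x + 1 else (D + 1) * x - x % D

/-- the value of `F_D ∘ F_D` at the numbers which are not divisible by `D` -/
def G (D x : ℕ) : ℕ := (D + 1) * (x / D) + if x % D = D - 1 then D else x % D

lemma F_zero {D x : ℕ} (h : x % D = 0) : F D x = x / D := by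
  unfold F
  rw [if_pos h]

lemma F_mul {D x : ℕ} (hD : 2 ≤ D) (h : x % D ≠ 0) : F D x = D * G D x := by
  unfold F G
  rw [if_neg h]
  have hx := Nat.div_add_mod x D
  obtain ⟨u, hu⟩ : ∃ u, u = x / D := ⟨_, rfl⟩
  obtain ⟨r, hr⟩ : ∃ r, r = x % D := ⟨_, rfl⟩
  rw [← hu, ← hr] at hx ⊢
  have hrD : r < D := by rw [hr]; exact Nat.mod_lt _ (by omega)
  split_ifs with h1
  · obtain ⟨e, rfl⟩ : ∃ e, D = e + 1 := ⟨D - 1, by omega⟩
    have h2 : r = e := by omega
    rw [← hx, h2]
    ring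
  · rw [← hx]
    have h2 : (D + 1) * (D * u + r) = D * ((D + 1) * u + r) + r := by ring
    rw [h2]
    omega

lemma F_F {D x : ℕ} (hD : 2 ≤ D) (h : x % D ≠ 0) : F D (F D x) = G D x := by
  rw [F_mul hD h, F_zero (Nat.mul_mod_right D _), Nat.mul_div_cancel_left _ (by omega)]

lemma F_le {D x : ℕ} (hx : 1 ≤ x) : F D x ≤ (D + 2) * x := by
  unfold F
  split_ifs with h1 h2
  · exact (Nat.div_le_self x D).trans (Nat.le_mul_of_pos_left x (by omega))
  · nlinarith
  · exact (Nat.sub_le _ _).trans (Nat.mul_le_mul_right x (by omega))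

lemma F_pos {D x : ℕ} (hD : 2 ≤ D) (hx : 1 ≤ x) : 1 ≤ F D x := by
  unfold F
  split_ifs with h1 h2
  · exact (Nat.one_le_div_iff (by omega)).2 (Nat.le_of_dvd hx (Nat.dvd_of_mod_eq_zero h1))
  · omega
  · have h3 : x % D ≤ x := Nat.mod_le _ _
    have h4 : 2 * x ≤ (D + 1) * x := Nat.mul_le_mul_right x (by omega)
    omega

lemma iter_pos {D x : ℕ} (hD : 2 ≤ D) (hx : 1 ≤ x) (n : ℕ) : 1 ≤ (F D)^[n] x := by
  induction n with
  | zero => exact hx
  | succ n ih =>
    rw [Function.iterate_succ_apply']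
    exact F_pos hD ih

lemma iter_le {D x : ℕ} (hD : 2 ≤ D) (hx : 1 ≤ x) (n : ℕ) : (F D)^[n] x ≤ (D + 2) ^ n * x := by
  induction n with
  | zero => simp
  | succ n ih =>
    rw [Function.iterate_succ_apply', pow_succ]
    calc F D ((F D)^[n] x) ≤ (D + 2) * (F D)^[n] x := F_le (iter_pos hD hx n)
      _ ≤ (D + 2) * ((D + 2) ^ n * x) := Nat.mul_le_mul_left _ ih
      _ = _ := by ring

/-- orbits with the same residues -/
lemma agree {D : ℕ} (hD : 2 ≤ D) : ∀ (L x y : ℕ), (∀ i, i < L → (F D)^[i] x % D = (F D)^[i] y % D) →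
    (D : ℤ) ^ (L / 2) ∣ (x : ℤ) - y := by
  have hcop : ∀ k : ℕ, IsCoprime ((D : ℤ) ^ k) ((D : ℤ) + 1) := fun k =>
    IsCoprime.pow_left ⟨-1, 1, by ring⟩
  intro L
  induction L using Nat.strong_induction_on with
  | _ L ih =>
    intro x y h
    rcases lt_or_ge L 2 with hL | hL
    · have : L / 2 = 0 := by omega
      rw [this, pow_zero]
      exact one_dvd _
    obtain ⟨L, rfl⟩ : ∃ L', L = L' + 2 := ⟨L - 2, by omega⟩
    have hdiv : (L + 2) / 2 = L / 2 + 1 := by omega
    rw [hdiv]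
    have h0 : x % D = y % D := h 0 (by omega)
    have hx : (x : ℤ) = D * (x / D : ℕ) + (x % D : ℕ) := by exact_mod_cast (Nat.div_add_mod x D).symm
    have hy : (y : ℤ) = D * (y / D : ℕ) + (y % D : ℕ) := by exact_mod_cast (Nat.div_add_mod y D).symm
    have hxy : (x : ℤ) - y = D * (((x / D : ℕ) : ℤ) - (y / D : ℕ)) := by
      rw [hx, hy, h0]
      ring
    rw [hxy, pow_succ, mul_comm]
    apply mul_dvd_mul_left
    by_cases hz : x % D = 0
    · have h1 := ih (L + 1) (by omega) (x / D) (y / D) (fun i hi => by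
        have h2 := h (i + 1) (by omega)
        rw [Function.iterate_succ_apply, Function.iterate_succ_apply, F_zero hz, F_zero (h0 ▸ hz)] at h2
        exact h2)
      exact (pow_dvd_pow _ (by omega)).trans h1
    · have hz' : y % D ≠ 0 := h0 ▸ hz
      have h1 := ih L (by omega) (G D x) (G D y) (fun i hi => by
        have h2 := h (i + 2) (by omega)
        rw [Function.iterate_add_apply, Function.iterate_add_apply] at h2
        have e : ∀ z, (F D)^[2] z = F D (F D z) := fun z => rfl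
        rw [e, e, F_F hD hz, F_F hD hz'] at h2
        exact h2)
      have h2 : ((G D x : ℕ) : ℤ) - (G D y : ℕ) = ((D : ℤ) + 1) * (((x / D : ℕ) : ℤ) - (y / D : ℕ)) := by
        unfold G
        rw [h0]
        push_cast
        ring
      rw [h2] at h1
      exact (hcop _).dvd_of_dvd_mul_left h1

/-- the linear form of the iterates -/
lemma linear {D y : ℕ} (hD : 2 ≤ D) (k : ℕ) : ∃ (a b : ℕ) (c : ℤ), a + b = k ∧
    (D : ℤ) ^ a * ((F D)^[k] y : ℕ) = ((D : ℤ) + 1) ^ b * y + c ∧ |c| ≤ (2 * ((D : ℤ) + 1)) ^ (k + 1) := by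
  induction k with
  | zero => exact ⟨0, 0, 0, rfl, by simp, by simp; positivity⟩
  | succ k ih =>
    obtain ⟨a, b, c, hab, h1, h2⟩ := ih
    rw [Function.iterate_succ_apply']
    set z := (F D)^[k] y with hz
    have hD0 : (0 : ℤ) ≤ D := Int.natCast_nonneg D
    by_cases hr : z % D = 0
    · refine ⟨a + 1, b, c, by omega, ?_, h2.trans (pow_le_pow_right₀ (by linarith) (by omega))⟩
      rw [F_zero hr]
      have h3 : (z : ℤ) = D * (z / D : ℕ) := by
        exact_mod_cast (Nat.mul_div_cancel' (Nat.dvd_of_mod_eq_zero hr)).symm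
      rw [← h1, h3]
      ring
    · obtain ⟨e, he, heD⟩ : ∃ e : ℤ, ((F D z : ℕ) : ℤ) = ((D : ℤ) + 1) * z + e ∧ |e| ≤ D := by
        unfold F
        rw [if_neg hr]
        split_ifs with h3
        · refine ⟨1, by push_cast; ring, ?_⟩
          rw [abs_one]
          exact_mod_cast (by omega : 1 ≤ D)
        · refine ⟨-(z % D : ℕ), ?_, ?_⟩
          · have h4 : z % D ≤ (D + 1) * z := (Nat.mod_le _ _).trans (Nat.le_mul_of_pos_left z (by omega))
            rw [Nat.cast_sub h4]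
            push_cast
            ring
          · rw [abs_neg, Nat.abs_cast]
            exact_mod_cast (Nat.mod_lt z (by omega)).le
      refine ⟨a, b + 1, (D + 1) * c + D ^ a * e, by omega, ?_, ?_⟩
      · rw [he]
        have : (D : ℤ) ^ a * (((D : ℤ) + 1) * z + e) = (D + 1) * (D ^ a * z) + D ^ a * e := by ring
        rw [this, h1]
        ring
      · have h5 : |(D : ℤ) ^ a * e| ≤ (D : ℤ) ^ (k + 1) := by
          rw [abs_mul, abs_pow, Nat.abs_cast, pow_succ]
          have h6 : (D : ℤ) ^ a ≤ (D : ℤ) ^ k := pow_le_pow_right₀ (by exact_mod_cast (by omega : 1 ≤ D)) (by omega)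
          exact mul_le_mul h6 heD (abs_nonneg _) (by positivity)
        have h6 : (D : ℤ) ^ (k + 1) ≤ (2 * ((D : ℤ) + 1)) ^ (k + 1) := pow_le_pow_left₀ hD0 (by linarith) _
        have h7 : |((D : ℤ) + 1) * c| ≤ (D + 1) * (2 * ((D : ℤ) + 1)) ^ (k + 1) := by
          rw [abs_mul, abs_of_nonneg (by linarith : (0 : ℤ) ≤ D + 1)]
          exact mul_le_mul_of_nonneg_left h2 (by linarith)
        have h8 : (0 : ℤ) ≤ (2 * ((D : ℤ) + 1)) ^ (k + 1) := by positivity
        calc |(D + 1) * c + (D : ℤ) ^ a * e| ≤ |((D : ℤ) + 1) * c| + |(D : ℤ) ^ a * e| := abs_add_le _ _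
          _ ≤ (D + 1) * (2 * ((D : ℤ) + 1)) ^ (k + 1) + (D + 1) * (2 * ((D : ℤ) + 1)) ^ (k + 1) := by nlinarith
          _ = _ := by rw [pow_succ _ (k + 1)]; ring

/-- the points of short cycles are bounded -/
lemma periodic_le {D y : ℕ} (hD : 2 ≤ D) (p : ℕ) (hp : 1 ≤ p) (h : (F D)^[p] y = y) :
    y ≤ (2 * (D + 1)) ^ (p + 1) := by
  obtain ⟨a, b, c, hab, h1, h2⟩ := linear (y := y) hD p
  rw [h] at h1
  have hne : (D : ℤ) ^ a ≠ ((D : ℤ) + 1) ^ b := by
    intro he
    have hcop : IsCoprime ((D : ℤ) ^ a) (((D : ℤ) + 1) ^ b) := IsCoprime.pow ⟨-1, 1, by ring⟩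
    rw [← he] at hcop
    have h3 : IsUnit ((D : ℤ) ^ a) := isCoprime_self.1 hcop
    have h4 : a = 0 := by
      by_contra ha
      have h5 : IsUnit (D : ℤ) := (isUnit_pow_iff ha).1 h3
      have h6 := Int.isUnit_iff.1 h5
      omega
    rw [h4, pow_zero] at he
    have h5 : b = 0 := by
      by_contra hb
      have h6 : (1 : ℤ) < ((D : ℤ) + 1) ^ b := one_lt_pow₀ (by omega) hb
      omega
    omega
  have h3 : ((D : ℤ) ^ a - ((D : ℤ) + 1) ^ b) * y = c := by linarith
  have h4 : (1 : ℤ) ≤ |(D : ℤ) ^ a - ((D : ℤ) + 1) ^ b| := Int.one_le_abs (sub_ne_zero.2 hne)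
  have h5 : (y : ℤ) ≤ |c| := by
    rw [← h3, abs_mul, Nat.abs_cast]
    have : (0 : ℤ) ≤ y := Int.natCast_nonneg y
    nlinarith
  have h6 := h5.trans h2
  exact_mod_cast h6

/-- a long repetition of the residues: the orbit is periodic from this point on -/
lemma arrive {D : ℕ} (hD : 2 ≤ D) (ρ : ℕ) {x l : ℕ} (hx : 1 ≤ x) (hxl : x ≤ 2 ^ l) (n L : ℕ)
    (hL : 4 * (n + ρ) + 2 * l + 2 ≤ L)
    (h : ∀ i, i < L → (F D)^[n + i + ρ] x % D = (F D)^[n + i] x % D) : (F D)^[ρ] ((F D)^[n] x) = (F D)^[n] x := by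
  have h1 := agree hD L ((F D)^[n + ρ] x) ((F D)^[n] x) (fun i hi => by
    rw [← Function.iterate_add_apply, ← Function.iterate_add_apply]
    have h2 := h i hi
    have e1 : i + (n + ρ) = n + i + ρ := by ring
    have e2 : i + n = n + i := by ring
    rw [e1, e2]
    exact h2)
  have hbd : ∀ m, m ≤ n + ρ → (F D)^[m] x < D ^ (L / 2) := by
    intro m hm
    calc (F D)^[m] x ≤ (D + 2) ^ m * x := iter_le hD hx m
      _ ≤ (D ^ 2) ^ m * D ^ l := by
          apply Nat.mul_le_mul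
          · exact Nat.pow_le_pow_left (by nlinarith) m
          · exact hxl.trans (Nat.pow_le_pow_left hD l)
      _ = D ^ (2 * m + l) := by rw [← pow_mul, ← pow_add]
      _ < D ^ (L / 2) := Nat.pow_lt_pow_right (by omega) (by omega)
  have h3 := hbd (n + ρ) le_rfl
  have h4 := hbd n (by omega)
  have h5 : (((F D)^[n + ρ] x : ℕ) : ℤ) - ((F D)^[n] x : ℕ) = 0 := by
    apply Int.eq_zero_of_abs_lt_dvd h1
    rw [abs_lt]
    have h6 : (((F D)^[n + ρ] x : ℕ) : ℤ) < (D : ℤ) ^ (L / 2) := by exact_mod_cast h3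
    have h7 : (((F D)^[n] x : ℕ) : ℤ) < (D : ℤ) ^ (L / 2) := by exact_mod_cast h4
    have h8 : (0 : ℤ) ≤ ((F D)^[n + ρ] x : ℕ) := Int.natCast_nonneg _
    have h9 : (0 : ℤ) ≤ ((F D)^[n] x : ℕ) := Int.natCast_nonneg _
    constructor <;> linarith
  have h6 : (F D)^[n + ρ] x = (F D)^[n] x := by exact_mod_cast sub_eq_zero.1 h5
  rw [← Function.iterate_add_apply, add_comm]
  exact h6

/-- one of many disjoint windows avoids a small set -/
lemma window (bad : ℕ → Prop) [DecidablePred bad] (A l N T : ℕ) (hA : 2 ≤ A) (hl : 1 ≤ l)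
    (hN : A ^ (T + 1) * l ≤ N) (hT : ((range N).filter bad).card ≤ T) :
    ∃ j, j ≤ T ∧ ∀ n, A ^ j * l ≤ n → n < A ^ (j + 1) * l → ¬ bad n := by
  by_contra hcon
  push Not at hcon
  choose s hs1 hs2 hs3 using fun j : Fin (T + 1) => hcon j (by omega)
  have hmono : ∀ i j : ℕ, i ≤ j → A ^ i * l ≤ A ^ j * l := fun i j hij =>
    Nat.mul_le_mul_right l (Nat.pow_le_pow_right (by omega) hij)
  have hinj : Function.Injective s := by
    intro i j hij
    by_contra hne
    rcases lt_or_gt_of_ne hne with h | h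
    · have h1 := hs2 i
      have h2 := hs1 j
      have h3 := hmono (i + 1) j (by omega)
      omega
    · have h1 := hs2 j
      have h2 := hs1 i
      have h3 := hmono (j + 1) i (by omega)
      omega
  have h1 : (univ.image s).card = T + 1 := by
    rw [card_image_of_injective _ hinj, card_univ, Fintype.card_fin]
  have h2 : univ.image s ⊆ (range N).filter bad := by
    intro n hn
    rw [mem_image] at hn
    obtain ⟨j, -, rfl⟩ := hn
    rw [mem_filter, mem_range]
    refine ⟨?_, hs3 j⟩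
    have h3 := hs2 j
    have h4 := hmono (j + 1) (T + 1) (by omega)
    omega
  have h3 := card_le_card h2
  omega

end Pool.Agent.U496.WG
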